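import Pool.Agent.Y164.NZ.StmT
import Pool.Agent.Y98.SZ.Adj
import Pool.Agent.Y547.SZ.Kda
import Pool.Agent.Y713.TG.Xk

/-!
NZT-TWIST: the condition at the places of the twist (project NZ, second part).
-/

set_option autoImplicit false
set_option linter.all false

open Polynomial IsDedekindDomain

namespace Pool.Agent.Y955.NZ.Twist

open Pool.Agent.Y713.SE
open Pool.Agent.Y713.SE.Dat
open Pool.Agent.TH115.GD (pl Comp Sep)
open Pool.Agent.Y164.SZ (Tm)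
open Pool.Agent.Y164.NZ

section val
variable {ℓ n : ℕ} {K : Type} [Field K] (D : Dat ℓ n K)
variable {R : Type} [CommRing R] [IsDedekindDomain R] [Algebra R K] [IsFractionRing R K]

/-- the valuations of the Kummer classes of the torsion points at a place of the twist -/
lemma ov_Tm (hδ : D.δ = 1) (u : ℕ) (v : HeightOneSpectrum R)
    (hv : ∀ i j, i ≠ j → v.valuation K (D.e i - D.e j) = WithZero.exp (-(u : ℤ)))
    (m : Fin n → ℕ) (i : Fin n) :
    ov ℓ v (Tm D m i) = (n : ZMod ℓ) * u * m i - u * ∑ k, (m k : ZMod ℓ) := by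
  classical
  have hne : ∀ i j, i ≠ j → D.e i - D.e j ≠ 0 := fun i j h => sub_ne_zero.2 fun h' => h (D.he h')
  have hov : ∀ i j, i ≠ j → ov ℓ v (D.e i - D.e j) = -(u : ZMod ℓ) := by
    intro i j h
    unfold ov lg
    rw [hv i j h, WithZero.log_exp]
    push_cast
    rfl
  have hP : ov ℓ v (D.δ * ∏ j ∈ Finset.univ.erase i, (D.e i - D.e j)) =
      -((n : ZMod ℓ) - 1) * u := by
    rw [hδ, one_mul, ov_prod _ _ fun j hj => hne i j (Finset.ne_of_mem_erase hj).symm,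
      Finset.sum_congr rfl fun j hj => hov i j (Finset.ne_of_mem_erase hj).symm, Finset.sum_const,
      Finset.card_erase_of_mem (Finset.mem_univ _), Finset.card_univ, Fintype.card_fin, nsmul_eq_mul,
      Nat.cast_sub D.n_pos, Nat.cast_one]
    ring
  have hP0 : D.δ * ∏ j ∈ Finset.univ.erase i, (D.e i - D.e j) ≠ 0 :=
    mul_ne_zero D.hδ (Finset.prod_ne_zero_iff.2 fun j hj => hne i j (Finset.ne_of_mem_erase hj).symm)
  unfold Tm
  rw [ov_prod]
  · have h1 : ∀ k ∈ (Finset.univ : Finset (Fin n)), ov ℓ v ((if k = i then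
        (D.δ * ∏ j ∈ Finset.univ.erase i, (D.e i - D.e j))⁻¹ else D.e i - D.e k) ^ m k) =
        (if k = i then (n : ZMod ℓ) * u * m i else 0) - u * m k := by
      intro k _
      rw [ov_pow]
      split_ifs with h
      · subst h
        rw [ov_inv hP0, hP]
        ring
      · rw [hov i k fun h' => h h'.symm]
        ring
    rw [Finset.sum_congr rfl h1, Finset.sum_sub_distrib, Finset.sum_ite_eq' Finset.univ i,
      if_pos (Finset.mem_univ _), Finset.mul_sum]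
  · intro k _
    refine pow_ne_zero _ ?_
    split_ifs with h
    · exact inv_ne_zero hP0
    · exact hne i k fun h' => h h'.symm

lemma unit_un (D : Dat ℓ n K) {u : ℕ} (hu : ¬ ℓ ∣ u) : (n : ZMod ℓ) * u ≠ 0 := by
  haveI := Fact.mk D.hp
  refine mul_ne_zero ?_ ?_
  · rw [Ne, ZMod.natCast_eq_zero_iff]
    exact D.hn
  · rw [Ne, ZMod.natCast_eq_zero_iff]
    exact hu

end val

lemma grp_id {G : Type} [CommGroup G] (f e A a d b R : G) :
    f * (e / A) / (a / d) = f / (b / R) * (e / (a / b) / (A / (d / R))) := by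
  apply Additive.ofMul.injective
  simp only [ofMul_mul, ofMul_div]
  abel

section tow
variable {ℓ n : ℕ} {K F Ω : Type} [Field K] [Field F] [Algebra K F] [Field Ω] [Algebra F Ω]
  [Algebra K Ω] [IsScalarTower K F Ω] (D : Dat ℓ n K)

lemma rel_div {z : (Ω ≃ₐ[F] Ω) → ClassGroup (D.base Ω).A} {τ : Ω ≃ₐ[K] Ω}
    {A : ClassGroup (D.base Ω).A} (h : Rel D z τ A) (R : ClassGroup (D.base Ω).A) :
    Rel D (fun σ => z σ / (D.mC (rs K σ) R / R)) τ (A / (D.mC (au τ) R / R)) := by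
  intro σ σ' hσ
  have e1 : (au τ).comp (rs K σ') = (rs K σ).comp (au τ) := AlgHom.ext fun x => hσ x
  show D.mC (au τ) (z σ' / (D.mC (rs K σ') R / R)) = _
  rw [_root_.map_div, _root_.map_div, _root_.map_div, _root_.map_div, h σ σ' hσ, mC_mC, mC_mC, e1]
  show z σ * (D.mC (rs K σ) A / A) / (D.mC ((rs K σ).comp (au τ)) R / D.mC (au τ) R) =
    z σ / (D.mC (rs K σ) R / R) * _
  generalize D.mC ((rs K σ).comp (au τ)) R = a
  generalize D.mC (rs K σ) R = b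
  generalize D.mC (au τ) R = d
  generalize D.mC (rs K σ) A = e
  generalize z σ = f
  exact grp_id f e A a d b R

end tow

theorem t (hRRT : S_RRT) (hPL : S_PL) (hLDE : S_LDE) (hLOCA : S_LOCA) (hLOCB : S_LOCB) :
    S_TWIST := by
  intro ℓ n k k' K F Ω _ _ _ _ _ _ _ _ _ _ _ _ _ _ _ _ _ _ _ _ hKF D hℓ ζ hζ z hz χ hχ hδ u hu v hv
  haveI := Fact.mk D.hp
  obtain ⟨θ, hθ1, hθ2⟩ := hPL k k' K F hKF v
  have hovF : ∀ x : K, ov ℓ (pl θ) (algebraMap K F x) = ov ℓ v x := by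
    intro x
    unfold ov
    rw [hθ2]
  have hun : (n : ZMod ℓ) * u ≠ 0 := unit_un D hu
  obtain ⟨kd0⟩ := D.exists_KD hχ.coc
  set i0 : Fin n := ⟨0, D.n_pos⟩ with hi0
  set rho : Fin n → ZMod ℓ := fun i => ov ℓ v (kd0.d i i0) with hrho
  have hkd0 : ∀ i j, ov ℓ v (kd0.d i j) = rho i - rho j := by
    intro i j
    obtain ⟨z, hz0, hz1⟩ := Pool.Agent.Y547.SZ.kd_rel D kd0 i j i0
    have h1 := congrArg (ov ℓ v) hz1
    rw [ov_mul (Pool.Agent.Y547.SZ.kd_ne D kd0 _ _) (Pool.Agent.Y547.SZ.kd_ne D kd0 _ _),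
      ov_mul (pow_ne_zero _ hz0) (Pool.Agent.Y547.SZ.kd_ne D kd0 _ _), ov_powl, zero_add] at h1
    exact eq_sub_of_add_eq h1
  refine ⟨fun i => (-(rho i) / ((n : ZMod ℓ) * u)).val, fun Q χ' kd hadj i j => ?_⟩
  set m : Fin n → ℕ := fun i => (-(rho i) / ((n : ZMod ℓ) * u)).val with hm
  have hmv : ∀ i, (n : ZMod ℓ) * u * (m i : ZMod ℓ) = -(rho i) := by
    intro i
    rw [hm]
    show (n : ZMod ℓ) * u * (((-(rho i) / ((n : ZMod ℓ) * u)).val : ℕ) : ZMod ℓ) = _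
    rw [ZMod.natCast_zmod_val, mul_div_cancel₀ _ hun]
  have hov0 : ∀ i j, ov ℓ v (kd.d i j) = 0 := by
    intro i j
    obtain ⟨x, hx0, hx⟩ := Pool.Agent.Y98.SZ.Adj.t ℓ n K D Ω hℓ m χ χ' kd0 kd Q hadj.1 hadj.2 i j
    have h1 := congrArg (ov ℓ v) hx
    rw [ov_mul (Pool.Agent.Y547.SZ.kd_ne D kd _ _) (Pool.Agent.Y98.SZ.Adj.Tm_ne D m j),
      ov_mul (pow_ne_zero _ hx0) (mul_ne_zero (Pool.Agent.Y547.SZ.kd_ne D kd0 _ _)
        (Pool.Agent.Y98.SZ.Adj.Tm_ne D m i)), ov_powl, zero_add,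
      ov_mul (Pool.Agent.Y547.SZ.kd_ne D kd0 _ _) (Pool.Agent.Y98.SZ.Adj.Tm_ne D m i), hkd0,
      ov_Tm D hδ u v hv, ov_Tm D hδ u v hv, hmv, hmv] at h1
    linear_combination h1
  -- the second layer, adjusted
  obtain ⟨p, hp⟩ := ExpChar.exists Ω
  haveI := hp
  obtain ⟨R, hR⟩ := (D.base Ω).phi_surj (p := p) Q
  have hRQ : (D.base Ω).phi R = Q := phi_eq_iff.2 hR
  have hQ : (D.base Ω).phi Q = cl ((D.base Ω).PT m) := phi_eq_iff.2 hadj.1
  set z' : (Ω ≃ₐ[F] Ω) → ClassGroup (D.base Ω).A := fun σ => z σ / (D.mC (rs K σ) R / R) with hz'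
  have hcoc : D.CocF z' := hz.coc.div (D.cob_CocF R)
  have htwo : ∀ σ, (D.base Ω).phi ((D.base Ω).phi (z' σ)) = 1 := by
    intro σ
    rw [hz']
    show (D.base Ω).phi ((D.base Ω).phi (z σ / (D.mC (rs K σ) R / R))) = 1
    rw [_root_.map_div, _root_.map_div, _root_.map_div, _root_.map_div, hz.two, ← mC_phi, ← mC_phi,
      hRQ, hQ, D.mC_PT, div_self', div_one]
  have hres : ∀ σ : Ω ≃ₐ[F] Ω, (D.base Ω).phi (z' σ) =
      cl ((D.base Ω).PT (χ' (σ.restrictScalars K))) := by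
    intro σ
    rw [hz']
    show (D.base Ω).phi (z σ / (D.mC (rs K σ) R / R)) = _
    rw [_root_.map_div, _root_.map_div, ← mC_phi, hRQ, hχ.res σ (σ.restrictScalars K) fun _ => rfl,
      hadj.2]
    rfl
  set kdF : D.KF (fun σ : Ω ≃ₐ[F] Ω => χ' (σ.restrictScalars K)) :=
    ⟨kd.θ, fun i j => algebraMap K F (kd.d i j), kd.h0, fun σ i j => kd.hθ (σ.restrictScalars K) i j,
      fun i j => by rw [kd.hd, IsScalarTower.algebraMap_apply K F Ω]⟩ with hkdF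
  have hovk : ∀ i j, ov ℓ (pl θ) (kdF.d i j) = 0 := fun i j => (hovF _).trans (hov0 i j)
  obtain ⟨ld, hld⟩ := hLDE k k' K F Ω hKF θ
  refine hLOCB ℓ k k' K F Ω hKF D.hp ζ hζ θ ld v hθ1 (kd.d i j) (kd.θ i j)
    (Pool.Agent.Y547.SZ.kd_ne D kd i j) (kd.hd i j) (hov0 i j) fun s hs => ?_
  obtain ⟨τ, hτ⟩ := hld s hs
  refine ⟨τ, hτ, ?_⟩
  obtain ⟨A, hA1, hA2⟩ := hχ.rel τ
  have hA3 := hχ.val τ A hA1 hA2
  have hA' : (D.base Ω).phi (A / (D.mC (au τ) R / R)) = cl ((D.base Ω).PT (χ' τ)) := by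
    rw [_root_.map_div, _root_.map_div, ← mC_phi, hRQ, hA3, hadj.2]
  have hloc := hLOCA ℓ n k k' K F Ω hKF D hℓ θ ld s τ hτ hs z' hcoc htwo _ kdF hres hovk
    (A / (D.mC (au τ) R / R)) (χ' τ) (rel_div D hA1 R) hA' i j
  rw [hovF, hovF, ov_Tm D hδ u v hv, ov_Tm D hδ u v hv] at hloc
  have h2 : (n : ZMod ℓ) * u * (χ' τ i : ZMod ℓ) = (n : ZMod ℓ) * u * (χ' τ j : ZMod ℓ) := by
    linear_combination hloc
  have h3 : χ' τ i ≡ χ' τ j [MOD ℓ] := (ZMod.natCast_eq_natCast_iff _ _ _).1 (mul_left_cancel₀ hun h2)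
  have h4 := kd.hθ τ i j
  rw [(D.base Ω).ζ_pow_of_modEq h3] at h4
  exact mul_left_cancel₀ (pow_ne_zero _ (D.base Ω).ζ_ne) h4

end Pool.Agent.Y955.NZ.Twist
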